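import Pool.Agent.Lib.MP_ba0fa5_ag.AA.H97.Loww

/-!
Module COPR: the quadruples which are not pairwise coprime have small mass.
-/

set_option autoImplicit false

namespace Pool.Agent.Lib.MP_ba0fa5_ag.AA.H97

open scoped Classical
open Finset

theorem ws_eq (n : ℕ) : ws n = n.factorization.prod fun l e => dl l ^ e := rfl

theorem ws_mul {a b : ℕ} (ha : a ≠ 0) (hb : b ≠ 0) : ws (a * b) = ws a * ws b := by
  rw [ws_eq, ws_eq, ws_eq, Nat.factorization_mul ha hb]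
  exact Finsupp.prod_add_index' (h := fun l e => dl l ^ e) (fun l => pow_zero _)
    (fun l e e' => pow_add _ _ _)

theorem ws_le_one (n : ℕ) : ws n ≤ 1 :=
  Finset.prod_le_one (fun l _ => pow_nonneg (dl_nonneg l) _)
    (fun l _ => pow_le_one₀ (dl_nonneg l) (dl_le_one l))

/-- `ws n / n` -/
noncomputable def wf (n : ℕ) : ℝ := ws n / n

theorem wf_nonneg (n : ℕ) : 0 ≤ wf n := div_nonneg (ws_nonneg n) (by positivity)

theorem wf_le_inv (n : ℕ) : wf n ≤ 1 / n :=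
  div_le_div_of_nonneg_right (ws_le_one n) (by positivity)

theorem wf_le_fw {n : ℕ} (hn : 0 < n) : wf n ≤ fw n := by
  unfold wf fw
  refine div_le_div_of_nonneg_left (ws_nonneg n) ?_ ?_
  · exact_mod_cast Nat.totient_pos.2 hn
  · exact_mod_cast Nat.totient_le n

theorem wf_mul {a b : ℕ} (ha : a ≠ 0) (hb : b ≠ 0) : wf (a * b) = wf a * wf b := by
  unfold wf
  rw [ws_mul ha hb]
  push_cast
  rw [mul_div_mul_comm]

theorem sum_inv_sq_gt (A : Finset ℕ) (T : ℕ) (hT : 1 ≤ T) (hA : ∀ l ∈ A, T < l) :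
    ∑ l ∈ A, ((1 : ℝ) / l) ^ 2 ≤ 1 / T := by
  have hsub : A ⊆ Finset.Ioc T (A.sup id + T) := by
    intro l hl
    have e1 : l ≤ A.sup id := Finset.le_sup (f := id) hl
    exact Finset.mem_Ioc.2 ⟨hA l hl, by omega⟩
  calc ∑ l ∈ A, ((1 : ℝ) / l) ^ 2 ≤ ∑ l ∈ Finset.Ioc T (A.sup id + T), ((1 : ℝ) / l) ^ 2 :=
        Finset.sum_le_sum_of_subset_of_nonneg hsub fun l _ _ => by positivity
    _ = ∑ l ∈ Finset.Ioc T (A.sup id + T), ((l : ℝ) ^ 2)⁻¹ :=
        Finset.sum_congr rfl fun l _ => by rw [div_pow, one_pow, one_div]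
    _ ≤ ((T : ℕ) : ℝ)⁻¹ - ((A.sup id + T : ℕ) : ℝ)⁻¹ :=
        sum_Ioc_inv_sq_le_sub (by omega) (by omega)
    _ ≤ 1 / T := by
        have : (0 : ℝ) ≤ ((A.sup id + T : ℕ) : ℝ)⁻¹ := by positivity
        rw [one_div]
        linarith

/-- sum over the non coprime pairs -/
noncomputable def EE (f : ℕ → ℝ) (n n' : ℕ) : ℝ := if n.Coprime n' then 0 else f n * f n'

theorem pair_noncop (A A' : Finset ℕ) (f : ℕ → ℝ) (hf : ∀ n, 0 ≤ f n) (W M : ℕ)
    (hA : ∀ n ∈ A, 0 < n ∧ n ≤ M ∧ ∀ l : ℕ, l.Prime → l ∣ n → W < l) :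
    ∑ n ∈ A, ∑ n' ∈ A', EE f n n' ≤
      ∑ l ∈ primesIn W M, (∑ n ∈ A.filter (fun n => l ∣ n), f n) *
        (∑ n ∈ A'.filter (fun n => l ∣ n), f n) := by
  have h1 : ∑ l ∈ primesIn W M, (∑ n ∈ A.filter (fun n => l ∣ n), f n) *
        (∑ n ∈ A'.filter (fun n => l ∣ n), f n) =
      ∑ n ∈ A, ∑ n' ∈ A', ∑ l ∈ primesIn W M, (if l ∣ n then f n else 0) *
        (if l ∣ n' then f n' else 0) := by
    rw [Finset.sum_congr rfl fun l _ => by
      rw [Finset.sum_filter, Finset.sum_filter, Finset.sum_mul_sum], Finset.sum_comm]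
    exact Finset.sum_congr rfl fun n _ => Finset.sum_comm
  rw [h1]
  refine Finset.sum_le_sum fun n hn => Finset.sum_le_sum fun n' _ => ?_
  have h0 : ∀ l ∈ primesIn W M, 0 ≤ (if l ∣ n then f n else 0) * (if l ∣ n' then f n' else 0) := by
    intro l _
    refine mul_nonneg ?_ ?_
    · split_ifs
      · exact hf n
      · exact le_rfl
    · split_ifs
      · exact hf n'
      · exact le_rfl
  unfold EE
  by_cases hc : n.Coprime n'
  · rw [if_pos hc]
    exact Finset.sum_nonneg h0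
  · rw [if_neg hc]
    obtain ⟨hn0, hnM, hnW⟩ := hA n hn
    obtain ⟨l, hl, hln, hln'⟩ := Nat.Prime.not_coprime_iff_dvd.1 hc
    have hmem : l ∈ primesIn W M :=
      mem_primesIn.2 ⟨⟨hnW l hl hln, (Nat.le_of_dvd hn0 hln).trans hnM⟩, hl⟩
    have h2 := Finset.single_le_sum h0 hmem
    rw [if_pos hln, if_pos hln'] at h2
    exact h2

theorem mem_cls {W a lo hi n : ℕ} : n ∈ cls W a lo hi ↔
    (lo < n ∧ n ≤ hi) ∧ n ≡ a [MOD primorial W] := by
  rw [cls, Finset.mem_filter, Finset.mem_Ioc]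

theorem cls_rough {W a lo hi n : ℕ} (ha : a.Coprime (primorial W)) (hn : n ∈ cls W a lo hi)
    {l : ℕ} (hl : l.Prime) (hln : l ∣ n) : W < l := by
  by_contra hc
  rw [not_lt] at hc
  have h1 : l ∣ primorial W := (hl.dvd_primorial_iff).2 hc
  have h2 : l ∣ a := ((mem_cls.1 hn).2.dvd_iff h1).1 hln
  have h3 := Nat.dvd_gcd h2 h1
  rw [ha] at h3
  exact hl.one_lt.ne' (Nat.dvd_one.1 h3)

theorem logpos {Z : ℕ} (hZ : 3 ≤ Z) : 1 ≤ Real.log Z := by
  have h3 : Real.exp 1 ≤ 3 := by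
    have := Real.exp_one_lt_d9
    linarith
  have h4 : (3 : ℝ) ≤ Z := by exact_mod_cast hZ
  rw [Real.le_log_iff_exp_le (by linarith)]
  exact h3.trans h4

theorem SS_lower {W Y : ℕ} (hW : 3 ≤ W) (hY : W ≤ Y) : 1 / ((primorial W).totient : ℝ) ≤ SS W Y := by
  unfold SS
  refine div_le_div_of_nonneg_right ?_ (by positivity)
  refine Real.one_le_rpow ?_ (by norm_num)
  have h1 := logpos hW
  rw [le_div_iff₀ (by linarith), one_mul]
  exact Real.log_le_log (by positivity) (by exact_mod_cast hY)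

/-- The facts about one class. -/
structure CF (W Z : ℕ) (K₁ m B : ℝ) (A : Finset ℕ) : Prop where
  pos : ∀ n ∈ A, 0 < n ∧ n ≤ Z ^ 300 ∧ ∀ l : ℕ, l.Prime → l ∣ n → W < l
  low : m ≤ ∑ n ∈ A, wf n
  small : ∀ l : ℕ, l.Prime → W < l → (l : ℝ) ≤ Real.log Z ^ 3 →
    ∑ n ∈ A.filter (fun n => l ∣ n), wf n ≤ K₁ * (∑ n ∈ A, wf n) * (1 / l)
  large : ∀ l : ℕ, l.Prime → ∑ n ∈ A.filter (fun n => l ∣ n), wf n ≤ B * (1 / l)

theorem pair_bound {W Z : ℕ} {K₁ m B : ℝ} {A A' : Finset ℕ} (hW : 3 ≤ W) (hZ : 8 ≤ Z)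
    (hK : 0 ≤ K₁) (hm : 0 < m) (hB : 0 ≤ B) (hA : CF W Z K₁ m B A) (hA' : CF W Z K₁ m B A')
    (hsm : B ^ 2 * (2 / Real.log Z ^ 3) ≤ (W : ℝ) ^ (-(1 / 4) : ℝ) * m ^ 2) :
    ∑ n ∈ A, ∑ n' ∈ A', EE wf n n' ≤
      (K₁ ^ 2 + 1) * (W : ℝ) ^ (-(1 / 4) : ℝ) * ((∑ n ∈ A, wf n) * ∑ n ∈ A', wf n) := by
  set S := ∑ n ∈ A, wf n with hS
  set S' := ∑ n ∈ A', wf n with hS'
  have hSm : m ≤ S := hA.low
  have hSm' : m ≤ S' := hA'.low
  have hW0 : (0 : ℝ) < W := by positivity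
  have hlogZ : 2 ≤ Real.log Z := by
    have h3 : Real.exp 2 ≤ 8 := by
      have h1 := Real.exp_one_lt_d9
      have h2 : Real.exp 2 = Real.exp 1 * Real.exp 1 := by
        rw [← Real.exp_add]
        norm_num
      rw [h2]
      nlinarith [Real.exp_pos 1]
    have h4 : (8 : ℝ) ≤ Z := by exact_mod_cast hZ
    rw [Real.le_log_iff_exp_le (by linarith)]
    exact h3.trans h4
  set T : ℕ := ⌊Real.log Z ^ 3⌋₊ with hT
  have hL8 : 8 ≤ Real.log Z ^ 3 := by
    have : (2 : ℝ) ^ 3 ≤ Real.log Z ^ 3 := pow_le_pow_left₀ (by norm_num) hlogZ 3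
    linarith
  have hT1 : 1 ≤ T := Nat.le_floor (by push_cast; linarith)
  have hTlow : Real.log Z ^ 3 / 2 ≤ T := by
    have := Nat.sub_one_lt_floor (Real.log Z ^ 3)
    rw [← hT] at this
    linarith
  have h1 := pair_noncop A A' wf wf_nonneg W (Z ^ 300) hA.pos
  refine h1.trans ?_
  have hS0 : 0 ≤ S := hm.le.trans hSm
  have hS0' : 0 ≤ S' := hm.le.trans hSm'
  clear_value S S'
  rw [← Finset.sum_filter_add_sum_filter_not (primesIn W (Z ^ 300)) (fun l => l ≤ T)]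
  have h2 : ∑ l ∈ (primesIn W (Z ^ 300)).filter (fun l => l ≤ T),
      (∑ n ∈ A.filter (fun n => l ∣ n), wf n) * (∑ n ∈ A'.filter (fun n => l ∣ n), wf n) ≤
      K₁ ^ 2 * (S * S') * (1 / W) := by
    calc _ ≤ ∑ l ∈ (primesIn W (Z ^ 300)).filter (fun l => l ≤ T),
          K₁ ^ 2 * (S * S') * ((1 : ℝ) / l) ^ 2 := by
          refine Finset.sum_le_sum fun l hl => ?_
          obtain ⟨hl1, hl2⟩ := Finset.mem_filter.1 hl
          obtain ⟨⟨hl3, -⟩, hl4⟩ := mem_primesIn.1 hl1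
          have hlT : (l : ℝ) ≤ Real.log Z ^ 3 :=
            (show (l : ℝ) ≤ T by exact_mod_cast hl2).trans (Nat.floor_le (by positivity))
          have e1 := hA.small l hl4 hl3 hlT
          have e2 := hA'.small l hl4 hl3 hlT
          rw [← hS] at e1
          rw [← hS'] at e2
          calc _ ≤ (K₁ * S * (1 / l)) * (K₁ * S' * (1 / l)) :=
                mul_le_mul e1 e2 (Finset.sum_nonneg fun n _ => wf_nonneg n) (by positivity)
            _ = _ := by ring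
      _ = K₁ ^ 2 * (S * S') * ∑ l ∈ (primesIn W (Z ^ 300)).filter (fun l => l ≤ T),
          ((1 : ℝ) / l) ^ 2 := by rw [Finset.mul_sum]
      _ ≤ K₁ ^ 2 * (S * S') * (1 / W) := by
          refine mul_le_mul_of_nonneg_left (sum_inv_sq_gt _ W (by omega) fun l hl => ?_)
            (by positivity)
          exact (mem_primesIn.1 (Finset.mem_filter.1 hl).1).1.1
  have h3 : ∑ l ∈ (primesIn W (Z ^ 300)).filter (fun l => ¬ l ≤ T),
      (∑ n ∈ A.filter (fun n => l ∣ n), wf n) * (∑ n ∈ A'.filter (fun n => l ∣ n), wf n) ≤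
      B ^ 2 * (1 / T) := by
    calc _ ≤ ∑ l ∈ (primesIn W (Z ^ 300)).filter (fun l => ¬ l ≤ T),
          B ^ 2 * ((1 : ℝ) / l) ^ 2 := by
          refine Finset.sum_le_sum fun l hl => ?_
          obtain ⟨hl1, hl2⟩ := Finset.mem_filter.1 hl
          obtain ⟨⟨hl3, -⟩, hl4⟩ := mem_primesIn.1 hl1
          have e1 := hA.large l hl4
          have e2 := hA'.large l hl4
          calc _ ≤ (B * (1 / l)) * (B * (1 / l)) :=
                mul_le_mul e1 e2 (Finset.sum_nonneg fun n _ => wf_nonneg n) (by positivity)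
            _ = _ := by ring
      _ = B ^ 2 * ∑ l ∈ (primesIn W (Z ^ 300)).filter (fun l => ¬ l ≤ T),
          ((1 : ℝ) / l) ^ 2 := by rw [Finset.mul_sum]
      _ ≤ B ^ 2 * (1 / T) := by
          refine mul_le_mul_of_nonneg_left (sum_inv_sq_gt _ T hT1 fun l hl => ?_)
            (by positivity)
          exact not_le.1 (Finset.mem_filter.1 hl).2
  have h4 : (1 : ℝ) / T ≤ 2 / Real.log Z ^ 3 := by
    rw [div_le_div_iff₀ (by positivity) (by positivity)]
    linarith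
  have h5 : B ^ 2 * (1 / (T : ℝ)) ≤ (W : ℝ) ^ (-(1 / 4) : ℝ) * (S * S') := by
    refine (mul_le_mul_of_nonneg_left h4 (by positivity)).trans (hsm.trans ?_)
    refine mul_le_mul_of_nonneg_left ?_ (by positivity)
    rw [sq]
    exact mul_le_mul hSm hSm' hm.le (hm.le.trans hSm)
  have h6 : (1 : ℝ) / W ≤ (W : ℝ) ^ (-(1 / 4) : ℝ) := by
    rw [one_div, ← Real.rpow_neg_one]
    exact Real.rpow_le_rpow_of_exponent_le (by exact_mod_cast (by omega : 1 ≤ W)) (by norm_num)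
  have hSS : 0 ≤ S * S' := mul_nonneg (hm.le.trans hSm) (hm.le.trans hSm')
  have h7 : K₁ ^ 2 * (S * S') * (1 / W) ≤ K₁ ^ 2 * (S * S') * (W : ℝ) ^ (-(1 / 4) : ℝ) :=
    mul_le_mul_of_nonneg_left h6 (by positivity)
  linarith

theorem sum4 (X U V K : Finset ℕ) (F : ℕ → ℕ → ℕ → ℕ → ℝ) :
    ∑ q ∈ X ×ˢ U ×ˢ V ×ˢ K, F q.1 q.2.1 q.2.2.1 q.2.2.2 =
      ∑ x ∈ X, ∑ u ∈ U, ∑ v ∈ V, ∑ k ∈ K, F x u v k := by
  rw [Finset.sum_product]
  refine Finset.sum_congr rfl fun x _ => ?_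
  rw [Finset.sum_product]
  refine Finset.sum_congr rfl fun u _ => ?_
  rw [Finset.sum_product]

theorem noncop_term (f : ℕ → ℝ) (hf : ∀ n, 0 ≤ f n) (q : ℕ × ℕ × ℕ × ℕ) (h : ¬ Cop q) :
    f q.1 * f q.2.1 * f q.2.2.1 * f q.2.2.2 ≤
      EE f q.1 q.2.1 * (f q.2.2.1 * f q.2.2.2) + EE f q.1 q.2.2.1 * (f q.2.1 * f q.2.2.2) +
      EE f q.1 q.2.2.2 * (f q.2.1 * f q.2.2.1) + EE f q.2.1 q.2.2.1 * (f q.1 * f q.2.2.2) +
      EE f q.2.1 q.2.2.2 * (f q.1 * f q.2.2.1) + EE f q.2.2.1 q.2.2.2 * (f q.1 * f q.2.1) := by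
  obtain ⟨x, u, v, k⟩ := q
  have hE : ∀ a b, 0 ≤ EE f a b := by
    intro a b
    unfold EE
    split_ifs
    · exact le_rfl
    · exact mul_nonneg (hf a) (hf b)
  simp only [Cop] at h
  simp only
  have p1 := mul_nonneg (hE x u) (mul_nonneg (hf v) (hf k))
  have p2 := mul_nonneg (hE x v) (mul_nonneg (hf u) (hf k))
  have p3 := mul_nonneg (hE x k) (mul_nonneg (hf u) (hf v))
  have p4 := mul_nonneg (hE u v) (mul_nonneg (hf x) (hf k))
  have p5 := mul_nonneg (hE u k) (mul_nonneg (hf x) (hf v))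
  have p6 := mul_nonneg (hE v k) (mul_nonneg (hf x) (hf u))
  by_cases c1 : x.Coprime u
  · by_cases c2 : x.Coprime v
    · by_cases c3 : x.Coprime k
      · by_cases c4 : u.Coprime v
        · by_cases c5 : u.Coprime k
          · have c6 : ¬ v.Coprime k := fun c6 => h ⟨c1, c2, c3, c4, c5, c6⟩
            have e : EE f v k = f v * f k := if_neg c6
            rw [e]
            nlinarith
          · have e : EE f u k = f u * f k := if_neg c5
            rw [e]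
            nlinarith
        · have e : EE f u v = f u * f v := if_neg c4
          rw [e]
          nlinarith
      · have e : EE f x k = f x * f k := if_neg c3
        rw [e]
        nlinarith
    · have e : EE f x v = f x * f v := if_neg c2
      rw [e]
      nlinarith
  · have e : EE f x u = f x * f u := if_neg c1
    rw [e]
    nlinarith

theorem copr_core {W Z : ℕ} {K₁ m B : ℝ} {X U V K : Finset ℕ} (hW : 3 ≤ W) (hZ : 8 ≤ Z)
    (hK : 0 ≤ K₁) (hm : 0 < m) (hB : 0 ≤ B) (hX : CF W Z K₁ m B X) (hU : CF W Z K₁ m B U)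
    (hV : CF W Z K₁ m B V) (hK' : CF W Z K₁ m B K)
    (hsm : B ^ 2 * (2 / Real.log Z ^ 3) ≤ (W : ℝ) ^ (-(1 / 4) : ℝ) * m ^ 2) :
    ∑ q ∈ (X ×ˢ U ×ˢ V ×ˢ K).filter (fun q => ¬ Cop q),
      wf q.1 * wf q.2.1 * wf q.2.2.1 * wf q.2.2.2 ≤
      6 * (K₁ ^ 2 + 1) * (W : ℝ) ^ (-(1 / 4) : ℝ) *
        ((∑ n ∈ X, wf n) * (∑ n ∈ U, wf n) * (∑ n ∈ V, wf n) * ∑ n ∈ K, wf n) := by
  have hE : ∀ a b, 0 ≤ EE wf a b := by
    intro a b
    unfold EE
    split_ifs
    · exact le_rfl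
    · exact mul_nonneg (wf_nonneg a) (wf_nonneg b)
  have h1 : ∑ q ∈ (X ×ˢ U ×ˢ V ×ˢ K).filter (fun q => ¬ Cop q),
      wf q.1 * wf q.2.1 * wf q.2.2.1 * wf q.2.2.2 ≤
      ∑ q ∈ X ×ˢ U ×ˢ V ×ˢ K,
        (EE wf q.1 q.2.1 * (wf q.2.2.1 * wf q.2.2.2) + EE wf q.1 q.2.2.1 * (wf q.2.1 * wf q.2.2.2) +
        EE wf q.1 q.2.2.2 * (wf q.2.1 * wf q.2.2.1) + EE wf q.2.1 q.2.2.1 * (wf q.1 * wf q.2.2.2) +
        EE wf q.2.1 q.2.2.2 * (wf q.1 * wf q.2.2.1) +
        EE wf q.2.2.1 q.2.2.2 * (wf q.1 * wf q.2.1)) := by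
    refine (Finset.sum_le_sum fun q hq => noncop_term wf wf_nonneg q
      (Finset.mem_filter.1 hq).2).trans ?_
    refine Finset.sum_le_sum_of_subset_of_nonneg (Finset.filter_subset _ _) fun q _ _ => ?_
    have := fun n => wf_nonneg n
    have p1 := mul_nonneg (hE q.1 q.2.1) (mul_nonneg (this q.2.2.1) (this q.2.2.2))
    have p2 := mul_nonneg (hE q.1 q.2.2.1) (mul_nonneg (this q.2.1) (this q.2.2.2))
    have p3 := mul_nonneg (hE q.1 q.2.2.2) (mul_nonneg (this q.2.1) (this q.2.2.1))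
    have p4 := mul_nonneg (hE q.2.1 q.2.2.1) (mul_nonneg (this q.1) (this q.2.2.2))
    have p5 := mul_nonneg (hE q.2.1 q.2.2.2) (mul_nonneg (this q.1) (this q.2.2.1))
    have p6 := mul_nonneg (hE q.2.2.1 q.2.2.2) (mul_nonneg (this q.1) (this q.2.1))
    linarith
  refine h1.trans ?_
  rw [Finset.sum_add_distrib, Finset.sum_add_distrib, Finset.sum_add_distrib,
    Finset.sum_add_distrib, Finset.sum_add_distrib,
    sum4 X U V K (fun x u v k => EE wf x u * (wf v * wf k)),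
    sum4 X U V K (fun x u v k => EE wf x v * (wf u * wf k)),
    sum4 X U V K (fun x u v k => EE wf x k * (wf u * wf v)),
    sum4 X U V K (fun x u v k => EE wf u v * (wf x * wf k)),
    sum4 X U V K (fun x u v k => EE wf u k * (wf x * wf v)),
    sum4 X U V K (fun x u v k => EE wf v k * (wf x * wf u))]
  simp only [← Finset.mul_sum, ← Finset.sum_mul]
  have b1 := pair_bound hW hZ hK hm hB hX hU hsm
  have b2 := pair_bound hW hZ hK hm hB hX hV hsm
  have b3 := pair_bound hW hZ hK hm hB hX hK' hsm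
  have b4 := pair_bound hW hZ hK hm hB hU hV hsm
  have b5 := pair_bound hW hZ hK hm hB hU hK' hsm
  have b6 := pair_bound hW hZ hK hm hB hV hK' hsm
  have s1 : 0 ≤ ∑ n ∈ X, wf n := Finset.sum_nonneg fun n _ => wf_nonneg n
  have s2 : 0 ≤ ∑ n ∈ U, wf n := Finset.sum_nonneg fun n _ => wf_nonneg n
  have s3 : 0 ≤ ∑ n ∈ V, wf n := Finset.sum_nonneg fun n _ => wf_nonneg n
  have s4 : 0 ≤ ∑ n ∈ K, wf n := Finset.sum_nonneg fun n _ => wf_nonneg n
  have c1 := mul_le_mul_of_nonneg_right b1 (mul_nonneg s3 s4)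
  have c2 := mul_le_mul_of_nonneg_right b2 (mul_nonneg s2 s4)
  have c3 := mul_le_mul_of_nonneg_right b3 (mul_nonneg s2 s3)
  have c4 := mul_le_mul_of_nonneg_right b4 (mul_nonneg s1 s4)
  have c5 := mul_le_mul_of_nonneg_right b5 (mul_nonneg s1 s3)
  have c6 := mul_le_mul_of_nonneg_right b6 (mul_nonneg s1 s2)
  refine (add_le_add (add_le_add (add_le_add (add_le_add (add_le_add c1 c2) c3) c4) c5) c6).trans
    (le_of_eq ?_)
  ring

theorem wf_HH {q : ℕ × ℕ × ℕ × ℕ} (h1 : 0 < q.1) (h2 : 0 < q.2.1) (h3 : 0 < q.2.2.1)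
    (h4 : 0 < q.2.2.2) : ws (HH q) / HH q = wf q.1 * wf q.2.1 * wf q.2.2.1 * wf q.2.2.2 := by
  change wf (q.1 * q.2.1 * q.2.2.1 * q.2.2.2) = _
  rw [wf_mul (by positivity) (by omega), wf_mul (by positivity) (by omega),
    wf_mul (by omega) (by omega)]

/-- COPR -/
theorem copr (hA : ApsumStmt) (hC : ClasslowStmt) (hT : TrivStmt) : CoprStmt := by
  obtain ⟨C₁, hC₁, hA⟩ := hA
  obtain ⟨c₂, hc₂, hC⟩ := hC
  obtain ⟨C₃, hC₃, hT⟩ := hT
  set K₁ : ℝ := 2 * C₁ / c₂ with hK₁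
  have hK0 : 0 ≤ K₁ := by positivity
  refine ⟨6 * (K₁ ^ 2 + 1), by positivity, fun W hW => ?_⟩
  obtain ⟨Ya, hYa⟩ := hA W 3 hW
  obtain ⟨Yb, hYb⟩ := hC W hW
  set m : ℝ := c₂ / (primorial W).totient with hm
  have hQ : 0 < primorial W := primorial_pos W
  have hphi : (0 : ℝ) < (primorial W).totient := by exact_mod_cast Nat.totient_pos.2 hQ
  have hm0 : 0 < m := by positivity
  have hW0 : (0 : ℝ) < (W : ℝ) ^ (-(1 / 4) : ℝ) := Real.rpow_pos_of_pos (by positivity) _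
  set R : ℝ := 20000 * C₃ ^ 2 / ((W : ℝ) ^ (-(1 / 4) : ℝ) * m ^ 2) with hR
  obtain ⟨Zr, hZr⟩ := exists_nat_ge (Real.exp R)
  refine ⟨max (max Ya Yb) (max (max W 8) Zr), fun Z c hZ hc => ?_⟩
  have z1 : Ya ≤ Z := ((le_max_left _ _).trans (le_max_left _ _)).trans hZ
  have z2 : Yb ≤ Z := ((le_max_right _ _).trans (le_max_left _ _)).trans hZ
  have z3 : W ≤ Z := (((le_max_left _ _).trans (le_max_left _ _)).trans (le_max_right _ _)).trans hZ
  have z4 : 8 ≤ Z := (((le_max_right _ _).trans (le_max_left _ _)).trans (le_max_right _ _)).trans hZ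
  have z5 : Zr ≤ Z := ((le_max_right _ _).trans (le_max_right _ _)).trans hZ
  have hlogZ1 : 1 ≤ Real.log Z := logpos (by omega)
  have hlogZR : R ≤ Real.log Z := by
    rw [Real.le_log_iff_exp_le (by positivity)]
    exact hZr.trans (by exact_mod_cast z5)
  set B : ℝ := C₃ * (100 * Real.log Z) with hB
  have hB0 : 0 ≤ B := by positivity
  have hsm : B ^ 2 * (2 / Real.log Z ^ 3) ≤ (W : ℝ) ^ (-(1 / 4) : ℝ) * m ^ 2 := by
    have h1 : B ^ 2 * (2 / Real.log Z ^ 3) = 20000 * C₃ ^ 2 / Real.log Z := by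
      rw [hB]
      field_simp
      ring
    rw [h1, div_le_iff₀ (by linarith)]
    rw [hR, div_le_iff₀ (by positivity)] at hlogZR
    linarith
  have hcf : ∀ Y a : ℕ, Z ≤ Y → Y ≤ Z ^ 100 → a.Coprime (primorial W) →
      CF W Z K₁ m B (cls W a Y (Y ^ 3)) := by
    intro Y a hZY hYZ ha
    have hlow := hYb Y a (z2.trans hZY) ha
    have hlow' : c₂ * SS W Y ≤ ∑ n ∈ cls W a Y (Y ^ 3), wf n := hlow
    have hZpos : (0 : ℝ) < Z := by exact_mod_cast (by omega : 0 < Z)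
    have hYpos : (0 : ℝ) < Y := by exact_mod_cast (by omega : 0 < Y)
    have hYlog : Real.log Z ≤ Real.log Y :=
      Real.log_le_log hZpos (by exact_mod_cast hZY)
    have hYlog2 : Real.log Y ≤ 100 * Real.log Z := by
      have h1 : Real.log Y ≤ Real.log ((Z : ℝ) ^ 100) :=
        Real.log_le_log hYpos (by exact_mod_cast hYZ)
      rw [Real.log_pow] at h1
      exact_mod_cast h1
    refine ⟨?_, ?_, ?_, ?_⟩
    · intro n hn
      obtain ⟨⟨h1, h2⟩, -⟩ := mem_cls.1 hn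
      refine ⟨by omega, h2.trans ?_, fun l hl hln => cls_rough ha hn hl hln⟩
      calc Y ^ 3 ≤ (Z ^ 100) ^ 3 := Nat.pow_le_pow_left hYZ 3
        _ = Z ^ 300 := by rw [← pow_mul]
    · refine le_trans ?_ hlow'
      rw [hm, div_eq_mul_one_div]
      exact mul_le_mul_of_nonneg_left (SS_lower hW (z3.trans hZY)) hc₂.le
    · intro l hl hWl hlZ
      have hlY : (l : ℝ) ≤ Real.log Y ^ 3 := hlZ.trans (pow_le_pow_left₀ (by linarith) hYlog 3)
      have hlQ : l.Coprime (primorial W) := by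
        rw [hl.coprime_iff_not_dvd]
        intro hd
        have := (hl.dvd_primorial_iff).1 hd
        omega
      have h1 := hYa Y l a 0 (z1.trans hZY) hl.pos hlY hlQ ha
      have h2 : ∑ n ∈ (cls W a Y (Y ^ 3)).filter (fun n => l ∣ n), wf n ≤
          ∑ n ∈ (cls W a Y (Y ^ 3)).filter (fun n => n ≡ 0 [MOD l]), fw n := by
        have h3 : (cls W a Y (Y ^ 3)).filter (fun n => l ∣ n) =
            (cls W a Y (Y ^ 3)).filter (fun n => n ≡ 0 [MOD l]) :=
          Finset.filter_congr fun n _ => (Nat.modEq_zero_iff_dvd).symm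
        rw [h3]
        refine Finset.sum_le_sum fun n hn => wf_le_fw ?_
        have := (mem_cls.1 (Finset.mem_filter.1 hn).1).1.1
        omega
      have hl2 : (2 : ℝ) ≤ l := by exact_mod_cast hl.two_le
      have h4 : C₁ * SS W Y / (l.totient : ℝ) ≤ 2 * C₁ * SS W Y * (1 / l) := by
        have hSS0 : 0 ≤ SS W Y := le_trans (by positivity) (SS_lower hW (z3.trans hZY))
        rw [Nat.totient_prime hl, Nat.cast_sub hl.one_le, Nat.cast_one, mul_one_div,
          div_le_div_iff₀ (by linarith) (by linarith)]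
        have h5 : 0 ≤ C₁ * SS W Y := by positivity
        nlinarith
      refine (h2.trans h1).trans (h4.trans ?_)
      refine mul_le_mul_of_nonneg_right ?_ (by positivity)
      rw [hK₁]
      calc 2 * C₁ * SS W Y = 2 * C₁ / c₂ * (c₂ * SS W Y) := by
            field_simp
        _ ≤ 2 * C₁ / c₂ * ∑ n ∈ cls W a Y (Y ^ 3), wf n :=
            mul_le_mul_of_nonneg_left hlow' (by positivity)
    · intro l hl
      have h1 := (hT Y l 0 (by omega) hl.pos).2.1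
      calc ∑ n ∈ (cls W a Y (Y ^ 3)).filter (fun n => l ∣ n), wf n ≤
          ∑ n ∈ (Ioc Y (Y ^ 3)).filter (fun n => l ∣ n), (1 : ℝ) / n := by
            refine (Finset.sum_le_sum fun n _ => wf_le_inv n).trans ?_
            refine Finset.sum_le_sum_of_subset_of_nonneg ?_ fun n _ _ => by positivity
            refine Finset.filter_subset_filter _ ?_
            exact Finset.filter_subset _ _
        _ ≤ C₃ * Real.log Y / l := h1
        _ ≤ C₃ * (100 * Real.log Z) / l := by gcongr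
        _ = B * (1 / l) := by rw [hB]; ring
  have hZ1 : 1 ≤ Z := by omega
  have hXc := hcf Z c le_rfl (Nat.le_self_pow (by norm_num) Z) hc
  have hUc := hcf (Z ^ 10) c (Nat.le_self_pow (by norm_num) Z)
    (Nat.pow_le_pow_right hZ1 (by norm_num)) hc
  have hQ1 : (primorial W - 1).Coprime (primorial W) := by
    have h2 : 2 ≤ primorial W := by
      have h3 : 2 ∣ primorial W := (Nat.prime_two.dvd_primorial_iff).2 (by omega)
      exact Nat.le_of_dvd hQ h3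
    have h4 : (primorial W - 1).Coprime (primorial W - 1 + 1) := Nat.coprime_self_add_right.2
      (Nat.coprime_one_right _)
    rwa [Nat.sub_add_cancel (by omega)] at h4
  have hVc := hcf (Z ^ 100) ((primorial W - 1) * c) (Nat.le_self_pow (by norm_num) Z) le_rfl
    (Nat.Coprime.mul_left hQ1 hc)
  have hKc := hcf Z 1 le_rfl (Nat.le_self_pow (by norm_num) Z) (Nat.coprime_one_left _)
  have hcore := copr_core hW z4 hK0 hm0 hB0 hXc hUc hVc hKc hsm
  have hterm : ∀ q ∈ BoxAll W c Z, ws (HH q) / HH q =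
      wf q.1 * wf q.2.1 * wf q.2.2.1 * wf q.2.2.2 := by
    intro q hq
    rw [BoxAll, Finset.mem_product, Finset.mem_product, Finset.mem_product] at hq
    obtain ⟨q1, q2, q3, q4⟩ := hq
    exact wf_HH (hXc.pos _ q1).1 (hUc.pos _ q2).1 (hVc.pos _ q3).1 (hKc.pos _ q4).1
  have hmass : mass W c Z = (∑ n ∈ cls W c Z (Z ^ 3), wf n) *
      (∑ n ∈ cls W c (Z ^ 10) ((Z ^ 10) ^ 3), wf n) *
      (∑ n ∈ cls W ((primorial W - 1) * c) (Z ^ 100) ((Z ^ 100) ^ 3), wf n) *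
      ∑ n ∈ cls W 1 Z (Z ^ 3), wf n := by
    rw [mass, Finset.sum_congr rfl hterm, BoxAll, sum4 _ _ _ _ (fun x u v k =>
      wf x * wf u * wf v * wf k)]
    simp only [← Finset.mul_sum, ← Finset.sum_mul]
  have hsplit : ∑ q ∈ Box W c Z, ws (HH q) / HH q +
      ∑ q ∈ (BoxAll W c Z).filter (fun q => ¬ Cop q), ws (HH q) / HH q = mass W c Z := by
    rw [Box, mass]
    exact Finset.sum_filter_add_sum_filter_not _ _ _
  have hnon : ∑ q ∈ (BoxAll W c Z).filter (fun q => ¬ Cop q), ws (HH q) / HH q ≤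
      6 * (K₁ ^ 2 + 1) * (W : ℝ) ^ (-(1 / 4) : ℝ) * mass W c Z := by
    rw [hmass, Finset.sum_congr rfl fun q hq => hterm q (Finset.mem_filter.1 hq).1]
    exact hcore
  linarith

end Pool.Agent.Lib.MP_ba0fa5_ag.AA.H97
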