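import Pool.Agent.Lib.MP_ba0fa5_ag.AA.IfaceA

/-!
Module LOWW: lower bound for the sum of the weights over rough numbers.
-/

set_option autoImplicit false

namespace Pool.Agent.Lib.MP_ba0fa5_ag.AA.H97

open scoped Classical
open Finset

theorem dl_nonneg (l : ℕ) : 0 ≤ dl l := by
  unfold dl
  split_ifs <;> norm_num

theorem dl_le_one (l : ℕ) : dl l ≤ 1 := by
  unfold dl
  split_ifs <;> norm_num

theorem exp_le_one_add {x : ℝ} (hx : 0 ≤ x) : Real.exp (x - x ^ 2) ≤ 1 + x := by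
  have h1 := Real.add_one_le_exp (x ^ 2 - x)
  have h2 : Real.exp (x - x ^ 2) * Real.exp (x ^ 2 - x) = 1 := by
    rw [← Real.exp_add]
    simp
  have h3 : 0 < Real.exp (x - x ^ 2) := Real.exp_pos _
  have h4 : Real.exp (x - x ^ 2) * (x ^ 2 - x + 1) ≤ 1 :=
    (mul_le_mul_of_nonneg_left h1 h3.le).trans h2.le
  have h5 : 0 < x ^ 2 - x + 1 := by nlinarith [sq_nonneg (x - 1 / 2)]
  have h6 : 1 ≤ (1 + x) * (x ^ 2 - x + 1) := by nlinarith [pow_nonneg hx 3]
  exact le_of_mul_le_mul_right (h4.trans h6) h5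

theorem sum_sq_le_one (P : Finset ℕ) (hP : ∀ l ∈ P, 2 ≤ l) : ∑ l ∈ P, ((1 : ℝ) / l) ^ 2 ≤ 1 := by
  have hsub : P ⊆ Finset.Ioc 1 (P.sup id + 1) := by
    intro l hl
    have e1 : l ≤ P.sup id := Finset.le_sup (f := id) hl
    exact Finset.mem_Ioc.2 ⟨hP l hl, by omega⟩
  calc ∑ l ∈ P, ((1 : ℝ) / l) ^ 2 ≤ ∑ l ∈ Finset.Ioc 1 (P.sup id + 1), ((1 : ℝ) / l) ^ 2 :=
        Finset.sum_le_sum_of_subset_of_nonneg hsub fun l _ _ => by positivity
    _ = ∑ l ∈ Finset.Ioc 1 (P.sup id + 1), ((l : ℝ) ^ 2)⁻¹ :=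
        Finset.sum_congr rfl fun l _ => by rw [div_pow, one_pow, one_div]
    _ ≤ ((1 : ℕ) : ℝ)⁻¹ - ((P.sup id + 1 : ℕ) : ℝ)⁻¹ :=
        sum_Ioc_inv_sq_le_sub one_ne_zero (by omega)
    _ ≤ 1 := by
        have : (0 : ℝ) ≤ ((P.sup id + 1 : ℕ) : ℝ)⁻¹ := by positivity
        rw [Nat.cast_one, inv_one]
        linarith

theorem prod_lower (P : Finset ℕ) (hP : ∀ l ∈ P, 2 ≤ l) (g : ℕ → ℝ)
    (hg : ∀ l ∈ P, 0 ≤ g l ∧ g l ≤ 1 / l) :
    Real.exp (∑ l ∈ P, g l - 1) ≤ ∏ l ∈ P, (1 + g l) := by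
  have h1 : ∑ l ∈ P, (g l) ^ 2 ≤ 1 :=
    (Finset.sum_le_sum fun l hl => pow_le_pow_left₀ (hg l hl).1 (hg l hl).2 2).trans
      (sum_sq_le_one P hP)
  calc Real.exp (∑ l ∈ P, g l - 1) ≤ Real.exp (∑ l ∈ P, (g l - (g l) ^ 2)) := by
        rw [Real.exp_le_exp, Finset.sum_sub_distrib]
        linarith
    _ = ∏ l ∈ P, Real.exp (g l - (g l) ^ 2) := Real.exp_sum _ _
    _ ≤ ∏ l ∈ P, (1 + g l) := Finset.prod_le_prod (fun l _ => (Real.exp_pos _).le)
        fun l hl => exp_le_one_add (hg l hl).1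

theorem mem_sfs {P : Finset ℕ} {D s : ℕ} : s ∈ sfs P D ↔
    (1 ≤ s ∧ s ≤ D) ∧ Squarefree s ∧ ∀ l : ℕ, l.Prime → l ∣ s → l ∈ P := by
  rw [sfs, Finset.mem_filter, Finset.mem_Icc]

theorem mem_primesIn {W z l : ℕ} : l ∈ primesIn W z ↔ (W < l ∧ l ≤ z) ∧ l.Prime := by
  rw [primesIn, Finset.mem_filter, Finset.mem_Ioc]

theorem ws_nonneg (n : ℕ) : 0 ≤ ws n := Finset.prod_nonneg fun l _ => pow_nonneg (dl_nonneg l) _

theorem ws_sqf {s : ℕ} (hs : Squarefree s) :
    ∏ l ∈ s.primeFactors, dl l / (l : ℝ) = ws s / s := by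
  rw [Finset.prod_div_distrib, ← Nat.cast_prod, Nat.prod_primeFactors_of_squarefree hs]
  congr 1
  unfold ws
  refine Finset.prod_congr rfl fun l hl => ?_
  have hl' := Nat.mem_primeFactors.1 hl
  rw [Nat.factorization_eq_one_of_squarefree hs hl'.1 hl'.2.1, pow_one]

/-- LOWW -/
theorem loww (hW : WmertStmt) (hR : RecgStmt) (hB : RankbStmt) : LowwStmt := by
  obtain ⟨C₀, hC₀⟩ := hW
  obtain ⟨C, hC⟩ := hB
  set C₁ : ℝ := max C₀ 0 with hC₁
  have hC₁0 : 0 ≤ C₁ := le_max_right _ _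
  obtain ⟨B, hBpos, hBexp⟩ : ∃ B : ℕ, 1 ≤ B ∧ Real.exp (C - B) ≤ 1 / 2 := by
    obtain ⟨B₀, hB₀⟩ := exists_nat_ge (C + 1)
    refine ⟨max B₀ 1, le_max_right _ _, ?_⟩
    have h1 : (B₀ : ℝ) ≤ ((max B₀ 1 : ℕ) : ℝ) := by exact_mod_cast le_max_left _ _
    have h2 : Real.exp (C - ((max B₀ 1 : ℕ) : ℝ)) ≤ Real.exp (-1) := by
      rw [Real.exp_le_exp]
      linarith
    have h3 : Real.exp (-1) ≤ 1 / 2 := by
      have h4 : (2 : ℝ) ≤ Real.exp 1 := by
        have := Real.add_one_le_exp (1 : ℝ)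
        linarith
      rw [Real.exp_neg, inv_eq_one_div]
      exact one_div_le_one_div_of_le (by norm_num) h4
    exact h2.trans h3
  have hB0 : (0 : ℝ) < B := by exact_mod_cast hBpos
  set K : ℝ := 4 * C₁ + 4 * (5 / 16) + 1 with hK
  refine ⟨1 / 2 * (Real.exp (-K) * (1 / (2 * B : ℝ)) ^ (5 / 16 : ℝ)), by positivity,
    fun W hW3 => ⟨(W + 2) ^ B, fun y hy => ?_⟩⟩
  -- the sifting limit
  obtain ⟨z, hzy, hyz⟩ : ∃ z : ℕ, z ^ B ≤ y ∧ y < (z + 1) ^ B := by
    have hex : ∃ z, y < (z + 1) ^ B := ⟨y, (Nat.lt_succ_self y).trans_le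
      (Nat.le_self_pow (by omega) _)⟩
    refine ⟨Nat.find hex, ?_, Nat.find_spec hex⟩
    by_contra hc
    rw [not_le] at hc
    rcases Nat.eq_zero_or_pos (Nat.find hex) with h0 | h0
    · rw [h0, zero_pow (by omega)] at hc
      exact absurd hc (by omega)
    · obtain ⟨w, hw⟩ := Nat.exists_eq_succ_of_ne_zero h0.ne'
      have := Nat.find_min hex (m := w) (by omega)
      apply this
      rw [hw] at hc
      exact hc
  have hzW : W + 2 ≤ z := by
    by_contra hc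
    rw [not_le] at hc
    have : (z + 1) ^ B ≤ (W + 2) ^ B := Nat.pow_le_pow_left (by omega) B
    omega
  have hz1 : (1 : ℝ) < z := by exact_mod_cast (by omega : 1 < z)
  have hy1 : 1 ≤ y := by
    have : 1 ≤ z ^ B := Nat.one_le_pow _ _ (by omega)
    omega
  have hlogz : 0 < Real.log z := Real.log_pos hz1
  have hlogW : 1 ≤ Real.log W := by
    have h3 : Real.exp 1 ≤ 3 := by
      have := Real.exp_one_lt_d9
      linarith
    have h4 : (3 : ℝ) ≤ W := by exact_mod_cast hW3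
    rw [Real.le_log_iff_exp_le (by linarith)]
    exact h3.trans h4
  have hBlog : (B : ℝ) * Real.log z ≤ Real.log y := by
    rw [← Real.log_pow]
    refine Real.log_le_log (by positivity) ?_
    exact_mod_cast hzy
  have hlogy : 0 < Real.log y := lt_of_lt_of_le (by positivity) hBlog
  have hlog2 : Real.log y ≤ 2 * B * Real.log z := by
    have h1 : Real.log y ≤ Real.log (((z + 1) ^ B : ℕ) : ℝ) :=
      Real.log_le_log (by exact_mod_cast hy1) (by exact_mod_cast hyz.le)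
    have h2 : Real.log (((z + 1) ^ B : ℕ) : ℝ) = B * Real.log ((z : ℝ) + 1) := by
      push_cast
      rw [Real.log_pow]
    have h3 : Real.log ((z : ℝ) + 1) ≤ 2 * Real.log z := by
      have h4 : (2 : ℝ) * Real.log z = Real.log ((z : ℝ) ^ 2) := by
        rw [Real.log_pow]
        norm_num
      rw [h4]
      refine Real.log_le_log (by positivity) ?_
      have h5 : (2 : ℝ) ≤ z := by exact_mod_cast (by omega : 2 ≤ z)
      nlinarith
    calc Real.log y ≤ B * Real.log ((z : ℝ) + 1) := by rw [← h2]; exact h1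
      _ ≤ B * (2 * Real.log z) := mul_le_mul_of_nonneg_left h3 hB0.le
      _ = 2 * B * Real.log z := by ring
  -- Rankin
  have hrank := hC z y (by omega) hy1 (primesIn W z) (fun l => dl l / l) (by
    intro l hl
    have hl' := mem_primesIn.1 hl
    refine ⟨hl'.2, hl'.1.2, div_nonneg (dl_nonneg l) (by positivity), ?_⟩
    exact div_le_div_of_nonneg_right ((dl_le_one l).trans (by norm_num)) (by positivity))
  have hfac : 1 / 2 ≤ 1 - Real.exp (C - Real.log y / Real.log z) := by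
    have h1 : (B : ℝ) ≤ Real.log y / Real.log z := by
      rw [le_div_iff₀ hlogz]
      exact hBlog
    have h2 : Real.exp (C - Real.log y / Real.log z) ≤ Real.exp (C - B) := by
      rw [Real.exp_le_exp]
      linarith
    linarith
  have hprod := prod_lower (primesIn W z) (fun l hl => (mem_primesIn.1 hl).2.two_le)
    (fun l => dl l / l) (fun l hl => ⟨div_nonneg (dl_nonneg l) (by positivity),
      div_le_div_of_nonneg_right (dl_le_one l) (by positivity)⟩)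
  have hrec := hR dl (5 / 16) C₁ (fun l => ⟨dl_nonneg l, dl_le_one l⟩) (by norm_num) hC₁0
    (fun y hy => (hC₀ y hy).trans (le_max_left _ _)) W z (by omega) (by omega)
  have hrec2 : 5 / 16 * Real.log (Real.log z / Real.log W) - (4 * C₁ + 4 * (5 / 16)) ≤
      ∑ l ∈ primesIn W z, dl l / l := by
    have h1 := (abs_le.1 hrec).1
    have h2 : (4 * C₁ + 4 * (5 / 16)) / Real.log W ≤ 4 * C₁ + 4 * (5 / 16) :=
      div_le_self (by positivity) hlogW
    linarith
  have hq : 0 < Real.log z / Real.log W := by positivity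
  have hprod2 : Real.exp (-K) * (Real.log z / Real.log W) ^ (5 / 16 : ℝ) ≤
      ∏ l ∈ primesIn W z, (1 + dl l / l) := by
    refine le_trans (le_of_eq ?_) ((Real.exp_le_exp.2 (sub_le_sub_right hrec2 1)).trans hprod)
    rw [Real.rpow_def_of_pos hq, ← Real.exp_add, hK]
    congr 1
    ring
  have hlow : (1 / (2 * B : ℝ)) ^ (5 / 16 : ℝ) * (Real.log y / Real.log W) ^ (5 / 16 : ℝ) ≤
      (Real.log z / Real.log W) ^ (5 / 16 : ℝ) := by
    rw [← Real.mul_rpow (by positivity) (by positivity)]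
    refine Real.rpow_le_rpow (by positivity) ?_ (by norm_num)
    rw [div_mul_div_comm, one_mul, div_le_div_iff₀ (by positivity) (by positivity)]
    nlinarith
  have hsum : ∑ s ∈ sfs (primesIn W z) y, ∏ l ∈ s.primeFactors, dl l / (l : ℝ) ≤
      ∑ n ∈ (Icc 1 y).filter (fun n => Rgh W n), ws n / n := by
    calc ∑ s ∈ sfs (primesIn W z) y, ∏ l ∈ s.primeFactors, dl l / (l : ℝ) =
        ∑ s ∈ sfs (primesIn W z) y, ws s / s :=
          Finset.sum_congr rfl fun s hs => ws_sqf (mem_sfs.1 hs).2.1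
      _ ≤ _ := by
          refine Finset.sum_le_sum_of_subset_of_nonneg ?_ fun n _ _ =>
            div_nonneg (ws_nonneg n) (by positivity)
          intro s hs
          obtain ⟨⟨e1, e2⟩, -, e3⟩ := mem_sfs.1 hs
          rw [Finset.mem_filter, Finset.mem_Icc]
          exact ⟨⟨e1, e2⟩, fun l hl hd => (mem_primesIn.1 (e3 l hl hd)).1.1⟩
  have hP0 : 0 ≤ ∏ l ∈ primesIn W z, (1 + dl l / (l : ℝ)) :=
    Finset.prod_nonneg fun l _ => add_nonneg zero_le_one (div_nonneg (dl_nonneg l) (by positivity))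
  calc 1 / 2 * (Real.exp (-K) * (1 / (2 * B : ℝ)) ^ (5 / 16 : ℝ)) *
        (Real.log y / Real.log W) ^ (5 / 16 : ℝ) =
      1 / 2 * (Real.exp (-K) * ((1 / (2 * B : ℝ)) ^ (5 / 16 : ℝ) *
        (Real.log y / Real.log W) ^ (5 / 16 : ℝ))) := by ring
    _ ≤ 1 / 2 * (Real.exp (-K) * (Real.log z / Real.log W) ^ (5 / 16 : ℝ)) := by
        gcongr
    _ ≤ 1 / 2 * ∏ l ∈ primesIn W z, (1 + dl l / (l : ℝ)) := by
        gcongr
    _ ≤ (1 - Real.exp (C - Real.log y / Real.log z)) *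
        ∏ l ∈ primesIn W z, (1 + dl l / (l : ℝ)) := mul_le_mul_of_nonneg_right hfac hP0
    _ ≤ _ := hrank.trans hsum

end Pool.Agent.Lib.MP_ba0fa5_ag.AA.H97
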